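import Pool.Agent.H.MP_0cad2f_co.helper39.Average

/-!
Typical distances in Gaussian-perturbed polytopes: far vertices are rare.
-/

set_option autoImplicit false

namespace Pool.Agent.H.MP_0cad2f_co.helper14

open MeasureTheory ProbabilityTheory Matrix Finset
open scoped NNReal ENNReal
open Pool.Agent.H.MP_0cad2f_co.helper47

variable {n d : ℕ}

open Classical in
/-- Translation of all constraints of `I` by `s e_j`. -/
noncomputable def shiftV (I : Idx n d) (j : Fin d) (s : ℝ) : Fin n → Fin d → ℝ :=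
  fun i => if i ∈ Set.range I then Pi.single j s else 0

theorem shiftV_mem (I : Idx n d) (j : Fin d) (s : ℝ) (k : Fin d) :
    shiftV I j s (I k) = Pi.single j s := if_pos ⟨k, rfl⟩

theorem shiftV_notMem (I : Idx n d) (j : Fin d) (s : ℝ) {i : Fin n} (hi : i ∉ Set.range I) :
    shiftV I j s i = 0 := if_neg hi

theorem n2_single (j : Fin d) {s : ℝ} (hs : s = 1 ∨ s = -1) :
    n2 (Pi.single j s : Fin d → ℝ) = 1 := by
  have h1 : (Pi.single j s : Fin d → ℝ) ⬝ᵥ Pi.single j s = 1 := by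
    rw [single_dotProduct, Pi.single_eq_same]
    rcases hs with rfl | rfl <;> norm_num
  rw [n2, h1, Real.sqrt_one]

theorem n2_zero : n2 (0 : Fin d → ℝ) = 0 := by
  rw [n2, zero_dotProduct, Real.sqrt_zero]

theorem sum_shiftV (I : Idx n d) (j : Fin d) {s : ℝ} (hs : s = 1 ∨ s = -1) :
    ∑ i, n2 (shiftV I j s i) = d := by
  classical
  have h1 : ∀ i, n2 (shiftV I j s i) = if i ∈ Set.range I then 1 else 0 := by
    intro i
    by_cases hi : i ∈ Set.range I
    · obtain ⟨k, rfl⟩ := hi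
      rw [shiftV_mem, n2_single j hs, if_pos ⟨k, rfl⟩]
    · rw [shiftV_notMem I j s hi, n2_zero, if_neg hi]
  simp_rw [h1]
  rw [← Finset.sum_filter, Finset.sum_const, nsmul_eq_mul, mul_one]
  have h2 : (Finset.univ.filter fun i => i ∈ Set.range I) = Finset.univ.map I.toEmbedding := by
    ext i
    simp
  rw [h2, Finset.card_map, Finset.card_univ, Fintype.card_fin]

theorem row_mem (a : Fin n → Fin d → ℝ) (I : Idx n d) (j : Fin d) (s t : ℝ) (k : Fin d)
    (y : Fin d → ℝ) :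
    (a + t • shiftV I j s) (I k) ⬝ᵥ y = a (I k) ⬝ᵥ y + t * (s * y j) := by
  rw [Pi.add_apply, Pi.smul_apply, shiftV_mem, add_dotProduct, smul_dotProduct,
    single_dotProduct, smul_eq_mul]

theorem row_notMem (a : Fin n → Fin d → ℝ) (I : Idx n d) (j : Fin d) (s t : ℝ) {i : Fin n}
    (hi : i ∉ Set.range I) : (a + t • shiftV I j s) i = a i := by
  rw [Pi.add_apply, Pi.smul_apply, shiftV_notMem I j s hi, smul_zero, add_zero]

/-- The translated basis. -/
theorem shift_good {a : Fin n → Fin d → ℝ} {I : Idx n d} (h : Good a I) {j : Fin d} {s t m : ℝ}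
    (hm : s * vtx a I j = m) (hm0 : 0 ≤ m) (ht : 0 ≤ t) :
    Good (a + t • shiftV I j s) I ∧
      vtx (a + t • shiftV I j s) I = (1 + t * m)⁻¹ • vtx a I := by
  obtain ⟨hdet, hfe⟩ := h
  have hD : 0 < 1 + t * m := by positivity
  have hdet' : (mat (a + t • shiftV I j s) I).det ≠ 0 := by
    refine det_ne_zero_of_dual
      (fun l => nu a I l - ((t * (s * nu a I l j)) / (1 + t * m)) • vtx a I) ?_
    intro k l
    rw [row_mem, dotProduct_sub, dotProduct_smul, dot_vtx hdet, dot_nu hdet, Pi.sub_apply,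
      Pi.smul_apply, smul_eq_mul, smul_eq_mul, mul_one]
    have h1 : s * (nu a I l j - t * (s * nu a I l j) / (1 + t * m) * vtx a I j) =
        s * nu a I l j - t * (s * nu a I l j) / (1 + t * m) * m := by
      rw [← hm]
      ring
    rw [h1]
    have h2 : -(t * (s * nu a I l j) / (1 + t * m)) +
        t * (s * nu a I l j - t * (s * nu a I l j) / (1 + t * m) * m) = 0 := by
      field_simp
      ring
    linarith
  have hv : vtx (a + t • shiftV I j s) I = (1 + t * m)⁻¹ • vtx a I := by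
    refine (eq_vtx hdet' ?_).symm
    intro k
    rw [row_mem, dotProduct_smul, dot_vtx hdet, Pi.smul_apply, smul_eq_mul, smul_eq_mul, mul_one]
    have h1 : s * ((1 + t * m)⁻¹ * vtx a I j) = (1 + t * m)⁻¹ * m := by
      rw [← hm]
      ring
    rw [h1]
    field_simp
  refine ⟨⟨hdet', ?_⟩, hv⟩
  intro i
  by_cases hi : i ∈ Set.range I
  · obtain ⟨k, rfl⟩ := hi
    exact (dot_vtx hdet' k).le
  · rw [row_notMem a I j s t hi, hv, dotProduct_smul, smul_eq_mul]
    have h1 : (1 + t * m)⁻¹ ≤ 1 := inv_le_one_of_one_le₀ (by nlinarith [mul_nonneg ht hm0])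
    have h2 : 0 < (1 + t * m)⁻¹ := inv_pos.2 hD
    nlinarith [hfe i]

/-- (8c) Far vertices are rare. -/
theorem vtx_bound (c : Fin n → Fin d → ℝ) {σ Rg ρ : ℝ} (hσ : 0 < σ) (hσ1 : σ ≤ 1)
    (hR : 0 ≤ Rg) (hρ : 0 < ρ) (I : Idx n d) :
    noise c σ {a | (∀ i, n2 (a i - c i) ≤ Rg) ∧ Good a I ∧ ρ < ‖vtx a I‖} ≤
      ENNReal.ofReal (12 * d ^ 2 * (Rg + 1) / (σ ^ 2 * ρ)) * noise c σ {a | Good a I} := by
  rcases Nat.eq_zero_or_pos d with hd | hd
  · subst hd
    have h0 : {a : Fin n → Fin 0 → ℝ | (∀ i, n2 (a i - c i) ≤ Rg) ∧ Good a I ∧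
        ρ < ‖vtx a I‖} = ∅ := by
      rw [Set.eq_empty_iff_forall_notMem]
      rintro a ⟨_, _, h3⟩
      rw [Subsingleton.elim (vtx a I) 0, norm_zero] at h3
      exact absurd h3 (not_lt.2 hρ.le)
    rw [h0, measure_empty]
    exact zero_le
  have hd0 : (0 : ℝ) < d := by exact_mod_cast hd
  have hR1 : (0 : ℝ) < Rg + 1 := by linarith
  have hσ2 : 0 < σ ^ 2 := by positivity
  set sg : Bool → ℝ := fun b => if b then 1 else -1 with hsg
  have hsg1 : ∀ b, sg b = 1 ∨ sg b = -1 := by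
    intro b
    cases b <;> simp [hsg]
  set S : Fin d × Bool → Set (Fin n → Fin d → ℝ) := fun p =>
    {a | (∀ i, n2 (a i - c i) ≤ Rg) ∧ Good a I ∧ ρ < ‖vtx a I‖ ∧
      sg p.2 * vtx a I p.1 = ‖vtx a I‖} with hSdef
  -- every class is small
  have hS : ∀ p, noise c σ (S p) ≤
      ENNReal.ofReal (6 * d * (Rg + 1) / (σ ^ 2 * ρ)) * noise c σ {a | Good a I} := by
    intro p
    have ht₀ : 0 < σ ^ 2 / (d * (Rg + 1)) := by positivity
    have h1 := helper39.noise_average c (shiftV I p.1 (sg p.2)) (σ := σ) (Rg := Rg) (t₁ := 0)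
      (t₀ := σ ^ 2 / (d * (Rg + 1))) (η := 1 / ρ) hσ hσ1 hR le_rfl ht₀
      (by
        rw [sum_shiftV I p.1 (hsg1 p.2), zero_add]
        apply le_of_eq
        field_simp)
      (S := S p) (W := {a | Good a I}) (helper11.TD.measurableSet_good I)
      (φ := fun a => ‖vtx a I‖⁻¹) ((helper11.TD.measurable_vtx I).norm.inv) ?_
    · refine h1.trans (le_of_eq ?_)
      congr 2
      field_simp
    · rintro a ⟨ha, hg, hρa, hm⟩
      refine ⟨ha, ?_⟩
      rintro t ⟨ht, _⟩
      have hm0 : 0 < ‖vtx a I‖ := hρ.trans hρa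
      obtain ⟨g1, g2⟩ := shift_good hg hm hm0.le ht
      refine ⟨g1, ?_⟩
      beta_reduce
      have hD : 0 < 1 + t * ‖vtx a I‖ := by positivity
      rw [g2, norm_smul, norm_inv, Real.norm_of_nonneg hD.le, mul_inv, inv_inv]
      have h2 : (1 + t * ‖vtx a I‖) * ‖vtx a I‖⁻¹ - t = ‖vtx a I‖⁻¹ := by
        field_simp
        ring
      rw [h2, abs_of_pos (inv_pos.2 hm0), one_div]
      exact inv_anti₀ hρ hρa.le
  -- the classes cover
  have hcov : {a | (∀ i, n2 (a i - c i) ≤ Rg) ∧ Good a I ∧ ρ < ‖vtx a I‖} ⊆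
      ⋃ p ∈ (Finset.univ : Finset (Fin d × Bool)), S p := by
    rintro a ⟨h1, h2, h3⟩
    have : Nonempty (Fin d) := ⟨⟨0, hd⟩⟩
    obtain ⟨j, hj⟩ : ∃ j, ‖vtx a I j‖ = ‖vtx a I‖ := by
      obtain ⟨j, _, hj⟩ := Finset.exists_max_image Finset.univ (fun j => ‖vtx a I j‖)
        Finset.univ_nonempty
      refine ⟨j, le_antisymm (norm_le_pi_norm _ _) ?_⟩
      exact (pi_norm_le_iff_of_nonneg (norm_nonneg _)).2 fun k => hj k (Finset.mem_univ k)
    rw [Real.norm_eq_abs] at hj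
    simp only [Set.mem_iUnion, Finset.mem_univ, exists_prop, true_and]
    rcases le_total 0 (vtx a I j) with h4 | h4
    · refine ⟨(j, true), h1, h2, h3, ?_⟩
      rw [abs_of_nonneg h4] at hj
      simp [hsg, hj]
    · refine ⟨(j, false), h1, h2, h3, ?_⟩
      rw [abs_of_nonpos h4] at hj
      simp [hsg, hj]
  calc noise c σ {a | (∀ i, n2 (a i - c i) ≤ Rg) ∧ Good a I ∧ ρ < ‖vtx a I‖}
      ≤ noise c σ (⋃ p ∈ (Finset.univ : Finset (Fin d × Bool)), S p) := measure_mono hcov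
    _ ≤ ∑ p : Fin d × Bool, noise c σ (S p) := measure_biUnion_finset_le _ _
    _ ≤ ∑ _p : Fin d × Bool, ENNReal.ofReal (6 * d * (Rg + 1) / (σ ^ 2 * ρ)) *
          noise c σ {a | Good a I} := Finset.sum_le_sum fun p _ => hS p
    _ = ENNReal.ofReal (12 * d ^ 2 * (Rg + 1) / (σ ^ 2 * ρ)) * noise c σ {a | Good a I} := by
        rw [Finset.sum_const, Finset.card_univ, Fintype.card_prod, Fintype.card_fin,
          Fintype.card_bool, nsmul_eq_mul, ← mul_assoc]
        congr 1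
        have h5 : ((d * 2 : ℕ) : ℝ≥0∞) = ENNReal.ofReal (d * 2) := by
          rw [← Nat.cast_ofNat (R := ℝ), ← Nat.cast_mul, ENNReal.ofReal_natCast]
        rw [h5, ← ENNReal.ofReal_mul (by positivity)]
        congr 1
        field_simp
        ring

end Pool.Agent.H.MP_0cad2f_co.helper14
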